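import Pool.Agent.U191.GT.Mix

/-!
# The Tate conjecture for the products of abelian varieties and unrelated varieties, over fields of
characteristic zero
-/

set_option autoImplicit false

open CategoryTheory AlgebraicGeometry
open scoped TensorProduct

namespace Pool.Agent.U191.GT

open Polynomial Pool.Agent.H914 Pool.Agent.H914.VarClass Pool.Agent.H914.VarClass.Obj
  Pool.Agent.H914.WeilCohomology Pool.Agent.H281R3.HT Pool.Agent.W552 Pool.Agent.W484.HS
  Pool.Agent.TH132.P Pool.Agent.TH132.A Pool.Agent.Y1.CT Pool.Agent.Y1.SC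
  Pool.Agent.W534 Pool.Agent.H447 Pool.Agent.U191.PT

section alg

variable {K : Type} [Field K] {A : Type} [Ring A] [Algebra K A] {Γ : Type} [Group Γ]
  {χ : Γ →* K} {ρ : Action Γ K A}

theorem chi_ne (χ : Γ →* K) (g : Γ) : χ g ≠ 0 := by
  intro h
  have h1 : χ g * χ g⁻¹ = 1 := by rw [← map_mul, mul_inv_cancel, map_one]
  rw [h, zero_mul] at h1
  exact zero_ne_one h1

/-- The linear map of an element. -/
noncomputable def lin (ρ : Action Γ K A) (g : Γ) : Module.End K A := (ρ.hom g).toLinearMap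

theorem lin_apply (g : Γ) (a : A) : lin ρ g a = act ρ g a := rfl

theorem act_add (g : Γ) (a b : A) : act ρ g (a + b) = act ρ g a + act ρ g b :=
  map_add (ρ.hom g) a b

theorem act_smul (g : Γ) (r : K) (a : A) : act ρ g (r • a) = r • act ρ g a :=
  map_smul (ρ.hom g) r a

theorem act_mul (g : Γ) (a b : A) : act ρ g (a * b) = act ρ g a * act ρ g b :=
  map_mul (ρ.hom g) a b

/-- The iterates as powers. -/
theorem iter_eq (g : Γ) (μ : K) (n : ℕ) (y : A) :
    Killed (act ρ g) μ n y ↔ ((lin ρ g - μ • (1 : Module.End K A)) ^ n) y = 0 := by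
  have h : ∀ (n : ℕ) (y : A), (fun v => act ρ g v - μ • v)^[n] y =
      ((lin ρ g - μ • (1 : Module.End K A)) ^ n) y := by
    intro n
    induction n with
    | zero => intro y; rfl
    | succ n ih =>
      intro y
      rw [Function.iterate_succ_apply, ih, pow_succ, Module.End.mul_apply]
      rfl
  rw [Killed, h]

/-- The classes of cycles. -/
theorem classes_fix {gr : ℕ → Submodule K A} {C : ℕ → Set A} {γ : Γ} {q s : ℕ} {I : Type}
    {F : I → ℤ[X]} (hA : HasFrobenius χ gr C ρ γ q s F) :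
    ∀ j, ∀ c ∈ C j, ∃ Δ : Subgroup Γ, Δ.FiniteIndex ∧ ∀ g ∈ Δ, act ρ g c = χ g ^ j • c := by
  intro j c hc
  obtain ⟨-, Δ, hΔ, h⟩ := hA.classes j c hc
  exact ⟨Δ, hΔ, fun g hg => sub_eq_zero.1 (h g hg)⟩

/-- Combinations of classes of cycles are Tate classes. -/
theorem fix_span {C : ℕ → Set A}
    (hG : ∀ j, ∀ c ∈ C j, ∃ Δ : Subgroup Γ, Δ.FiniteIndex ∧ ∀ g ∈ Δ, act ρ g c = χ g ^ j • c)
    {j : ℕ} {e : A} (he : e ∈ Submodule.span K (C j)) :
    ∃ Δ : Subgroup Γ, Δ.FiniteIndex ∧ ∀ g ∈ Δ, act ρ g e = χ g ^ j • e := by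
  induction he using Submodule.span_induction with
  | mem x hx => exact hG j x hx
  | zero => exact ⟨⊤, inferInstance, fun g _ => by
      rw [smul_zero]
      exact map_zero (ρ.hom g)⟩
  | add x y _ _ hx hy =>
    obtain ⟨Δ, hΔ, h1⟩ := hx
    obtain ⟨Δ', hΔ', h2⟩ := hy
    exact ⟨Δ ⊓ Δ', inferInstance, fun g hg => by
      rw [act_add, h1 g hg.1, h2 g hg.2, smul_add]⟩
  | smul r x _ hx =>
    obtain ⟨Δ, hΔ, h1⟩ := hx
    exact ⟨Δ, hΔ, fun g hg => by rw [act_smul, h1 g hg, smul_comm]⟩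

/-- A common subgroup for finitely many algebraic classes. -/
theorem exists_common_subgroup {C : ℕ → Set A}
    (hG : ∀ j, ∀ c ∈ C j, ∃ Δ : Subgroup Γ, Δ.FiniteIndex ∧ ∀ g ∈ Δ, act ρ g c = χ g ^ j • c)
    {κ : Type} [Fintype κ] {e : κ → A} {d : κ → ℕ}
    (he : ∀ l, e l ∈ Submodule.span K (C (d l))) :
    ∃ Δ : Subgroup Γ, Δ.FiniteIndex ∧ ∀ g ∈ Δ, ∀ l, act ρ g (e l) = χ g ^ d l • e l := by
  choose Δ hΔ h1 using fun l => fix_span hG (he l)
  exact ⟨⨅ l, Δ l, Subgroup.finiteIndex_iInf hΔ, fun g hg l => h1 l g (Subgroup.mem_iInf.1 hg l)⟩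

/-- The action of powers. -/
theorem act_pow (ρ : Action Γ K A) (γ : Γ) (N : ℕ) : lin ρ (γ ^ N) = lin ρ γ ^ N := by
  apply LinearMap.ext
  intro x
  induction N with
  | zero => rw [pow_zero, pow_zero, lin, map_one]; rfl
  | succ N ih =>
    rw [pow_succ' γ, lin, map_mul, pow_succ', Module.End.mul_apply, ← ih]
    rfl

/-- The eigenvectors in degree one. -/
theorem eigen_one {gr : ℕ → Submodule K A} {C : ℕ → Set A} {γ : Γ} {q s : ℕ} {I : Type}
    {F : I → ℤ[X]} (hA : HasFrobenius χ gr C ρ γ q s F) :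
    Submodule.span K {v : A | v ∈ gr 1 ∧
      ∃ z : {z : K // ∃ i, aeval z (F i) = 0},
        (ρ.hom γ : A →ₐ[K] A) v = ((z : K) ^ s) • v} = gr 1 := by
  refine Eq.trans (congrArg _ ?_) hA.eigen
  ext v
  constructor
  · rintro ⟨h1, ⟨z, i, hi⟩, h2⟩
    exact ⟨h1, i, z, hi, h2⟩
  · rintro ⟨h1, i, z, hi, h2⟩
    exact ⟨h1, ⟨z, i, hi⟩, h2⟩

/-- A power of the Frobenius element kills a generalised Tate class. -/
theorem exists_pow {U : Submodule K A} {γ : Γ} {Q : K} (hQ : χ γ = Q) {n j : ℕ} {y : A}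
    (hy : IsGenTate χ ρ U n j y) : ∃ N, 0 < N ∧
      ((lin ρ γ ^ N - ((Q ^ j) ^ N) • (1 : Module.End K A)) ^ n) y = 0 := by
  obtain ⟨hgr, Δ, hΔ, hy⟩ := hy
  obtain ⟨N, hN, -, hN'⟩ := Subgroup.exists_pow_mem_of_index_ne_zero hΔ.index_ne_zero γ
  refine ⟨N, hN, ?_⟩
  have h1 := hy _ hN'
  have h3 : (χ (γ ^ N)) ^ j = (Q ^ j) ^ N := by
    rw [map_pow, hQ, pow_right_comm]
  rwa [iter_eq, act_pow, h3] at h1

end alg

variable {k : Type} [Field k] {𝒱 : VarClass k} {ops : CycleOps 𝒱}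
  {W : WeilCohomology.{0, 0} ops} {Γ : Type} [Group Γ] {χ : Γ →* W.K} {A Z : 𝒱.Obj}
  {ρ : Action Γ W.K (W.H A)} {τ : Action Γ W.K (W.H Z)} {υ : Action Γ W.K (W.H (A.prod Z))}

/-- The action on products. -/
theorem act_ext (h1 : Equivariant (W.map (fst A Z)) ρ υ)
    (h2 : Equivariant (W.map (snd A Z)) τ υ) (g : Γ) (x : W.H A) (y : W.H Z) :
    act υ g (ext W x y) = ext W (act ρ g x) (act τ g y) := by
  rw [H281R3.HT.ext, act_mul, h1, h2]
  rfl

section

variable {κ : Type} [Fintype κ] [DecidableEq κ] {e b : κ → W.H A} {d : κ → ℕ}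

/-- **The coefficients of a generalised Tate class.** -/
theorem coeff_genTate (hG : ∀ j, ∀ c ∈ algClasses W A j, ∃ Δ : Subgroup Γ, Δ.FiniteIndex ∧
      ∀ g ∈ Δ, act ρ g c = χ g ^ j • c) (h1 : Equivariant (W.map (fst A Z)) ρ υ)
    (h2 : Equivariant (W.map (snd A Z)) τ υ) (h : HFam W A e b d) {n j : ℕ}
    {y : W.H (A.prod Z)} (hy : IsGenTate χ υ (W.gr (A.prod Z) (2 * j)) n j y)
    (hmix : y ∈ mixSpan W A Z) (l : κ) :
    (d l ≤ j → IsGenTate χ τ (W.gr Z (2 * (j - d l))) n (j - d l) (cf W (b l) y)) ∧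
      (¬ d l ≤ j → cf W (b l) y = 0) := by
  obtain ⟨hgr, Δ, hΔ, hΔy⟩ := hy
  obtain ⟨Δ', hΔ', h3⟩ := exists_common_subgroup hG (e := e) (d := d) fun l => by
    rw [← spanCycles_eq]
    exact h.he l
  have hdl := h.hd l
  refine ⟨fun hl => ⟨(cf_mem (H914.span_gr (h.hb l)) hgr).1 _ (by omega), Δ ⊓ Δ', inferInstance,
    fun g hg => ?_⟩, fun hl => (cf_mem (H914.span_gr (h.hb l)) hgr).2 (by omega)⟩
  have hrep := h.rep hmix
  set μ : W.K := χ g ^ j with hμ
  have hop : ∀ (n : ℕ) (v : κ → W.H Z), ((lin υ g -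
      μ • (1 : Module.End W.K (W.H (A.prod Z)))) ^ n) (∑ l, ext W (e l) (v l)) =
      ∑ l, ext W (e l) (((χ g ^ d l • lin τ g -
        μ • (1 : Module.End W.K (W.H Z))) ^ n) (v l)) := by
    intro n
    induction n with
    | zero => intro v; rfl
    | succ n ih =>
      intro v
      rw [pow_succ, Module.End.mul_apply]
      have h5 : (lin υ g - μ • (1 : Module.End W.K (W.H (A.prod Z))))
          (∑ l, ext W (e l) (v l)) = ∑ l, ext W (e l)
            ((χ g ^ d l • lin τ g -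
              μ • (1 : Module.End W.K (W.H Z))) (v l)) := by
        rw [map_sum]
        refine Finset.sum_congr rfl fun l _ => ?_
        have h6 : ∀ (y : W.H Z), (χ g ^ d l • lin τ g -
            μ • (1 : Module.End W.K (W.H Z))) y =
            χ g ^ d l • (act τ g y) + (-μ) • y := by
          intro y
          rw [LinearMap.sub_apply, sub_eq_add_neg, neg_smul]
          rfl
        have h7 : (lin υ g - μ • (1 : Module.End W.K (W.H (A.prod Z))))
            (ext W (e l) (v l)) = act υ g (ext W (e l) (v l)) + (-μ) • ext W (e l) (v l) := by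
          rw [LinearMap.sub_apply, sub_eq_add_neg, neg_smul]
          rfl
        rw [h6, h7, act_ext h1 h2, h3 g hg.2 l, ext_add_right, ext_smul_right, ext_smul_right]
        simp only [H281R3.HT.ext, map_smul, smul_mul_assoc]
      rw [h5, ih]
      refine Finset.sum_congr rfl fun l _ => ?_
      rw [pow_succ, Module.End.mul_apply]
  have h4 := (iter_eq g _ n y).1 (hΔy g hg.1)
  rw [hrep] at h4
  have h5 : ((lin υ g - μ • (1 : Module.End W.K (W.H (A.prod Z)))) ^ n)
      (∑ l, ext W (e l) (cf W (b l) y)) = 0 := h4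
  rw [hop] at h5
  have h6 := congrArg (cf W (b l)) h5
  rw [h.cf_sum, map_zero] at h6
  have h7 : (χ g ^ d l • lin τ g - μ • (1 : Module.End W.K (W.H Z))) =
      χ g ^ d l • (lin τ g -
        (χ g ^ (j - d l)) • (1 : Module.End W.K (W.H Z))) := by
    rw [smul_sub, smul_smul, ← pow_add, show d l + (j - d l) = j by omega]
  rw [h7, _root_.smul_pow, LinearMap.smul_apply] at h6
  rw [iter_eq]
  exact (smul_eq_zero.1 h6).resolve_left (pow_ne_zero _ (pow_ne_zero _ (chi_ne χ g)))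

end

variable {I : Type} {q : ℕ} (hq : 1 < q) {F : I → ℤ[X]} {R : ℂ → Prop} (hR : NoRel F q R)

include hq hR

/-- The generalised Tate classes on `A` are algebraic. -/
theorem tate_abelian (σ : W.K →+* ℂ) {γ : Γ} {s : ℕ} (hs : 0 < s)
    (hA : HasFrobenius χ (W.gr A) (algClasses W A) ρ γ q s F) (n : ℕ) :
    TateExp χ (W.gr A) (algClasses W A) ρ n := by
  intro j y hy
  obtain ⟨N, hN, h1⟩ := exists_pow hA.twist hy
  rw [← spanCycles_eq]
  refine Pool.Agent.W458.MF.spanCycles_of_alg ?_ hy.1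
  exact mem_alg_abs (ρ.hom γ : W.H A →ₐ[W.K] W.H A)
    (fun z : {z : W.K // ∃ i, aeval z (F i) = 0} => (z : W.K) ^ s) ((q : W.K) ^ s)
    (pow_ne_zero _ (Nat.cast_ne_zero.2 (by omega))) hA.generated (eigen_one hA) hA.divisors
    (exactPair_sigma hR σ hs 1 (by rw [map_one]; exact hR.one)) j n hN h1

/-- The generalised Tate classes on the product are combinations of products of algebraic classes
on `A` with classes on `Z`. -/
theorem mem_mix [IsAlgClosed W.K] {σ : W.K →+* ℂ} {γ : Γ} {s : ℕ} (hs : 0 < s)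
    (hA : HasFrobenius χ (W.gr A) (algClasses W A) ρ γ q s F)
    (hZ : ∀ (z : W.K) (v : W.H Z), v ≠ 0 → act τ γ v = z • v → R (σ z))
    (h1 : Equivariant (W.map (fst A Z)) ρ υ) (h2 : Equivariant (W.map (snd A Z)) τ υ)
    {n j : ℕ} {y : W.H (A.prod Z)} (hy : IsGenTate χ υ (W.gr (A.prod Z) (2 * j)) n j y) :
    y ∈ mixSpan W A Z := by
  obtain ⟨N, hN, h3⟩ := exists_pow hA.twist hy
  exact mem_mix_abs (ρ.hom γ : W.H A →ₐ[W.K] W.H A) (lin τ γ)
    (lin υ γ) (fun x y => act_ext h1 h2 γ x y)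
    (fun z : {z : W.K // ∃ i, aeval z (F i) = 0} => (z : W.K) ^ s) ((q : W.K) ^ s)
    (pow_ne_zero _ (Nat.cast_ne_zero.2 (by omega))) hA.generated (eigen_one hA) hA.divisors
    (fun z hz => by
      obtain ⟨v, hv⟩ := hz.exists_hasEigenvector
      exact exactPair_sigma hR σ hs z (hZ z v hv.2 hv.apply_eq_smul)) j n hN h3

/-- **The generalised Tate classes on the product are generated.** -/
theorem generated_prod [IsAlgClosed W.K] {σ : W.K →+* ℂ} {γ : Γ} {s : ℕ}
    (hs : 0 < s) (hD : HomEqNum W A) (hA : HasFrobenius χ (W.gr A) (algClasses W A) ρ γ q s F)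
    (hZ : ∀ (z : W.K) (v : W.H Z), v ≠ 0 → act τ γ v = z • v → R (σ z))
    (h1 : Equivariant (W.map (fst A Z)) ρ υ) (h2 : Equivariant (W.map (snd A Z)) τ υ)
    {n j : ℕ} {y : W.H (A.prod Z)} (hy : IsGenTate χ υ (W.gr (A.prod Z) (2 * j)) n j y) :
    y ∈ Submodule.span W.K {w | IsTateProduct χ τ n j w} := by
  obtain ⟨κ, _, _, e, b, d, h⟩ := exists_hFam hD
  have hmix := mem_mix hq hR hs hA hZ h1 h2 hy
  rw [h.rep hmix]
  refine Submodule.sum_mem _ fun l _ => ?_
  have h3 := coeff_genTate (classes_fix hA) h1 h2 h hy hmix l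
  by_cases hl : d l ≤ j
  · have h4 := h3.1 hl
    refine spanCycles_ind (p := fun x => ext W x (cf W (b l) y) ∈ Submodule.span W.K
      {w | IsTateProduct χ τ n j w}) ?_ ?_ ?_ ?_
        (h.he l)
    · intro x hx
      exact Submodule.subset_span ⟨d l, hl, x, hx, _, h4, rfl⟩
    · rw [show ext W (0 : W.H A) (cf W (b l) y) = 0 by simp [H281R3.HT.ext]]
      exact Submodule.zero_mem _
    · intro x x' hx hx'
      rw [show ext W (x + x') (cf W (b l) y) = ext W x (cf W (b l) y) +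
        ext W x' (cf W (b l) y) by simp only [H281R3.HT.ext, map_add, add_mul]]
      exact Submodule.add_mem _ hx hx'
    · intro r x hx
      rw [show ext W (r • x) (cf W (b l) y) = r • ext W x (cf W (b l) y) by
        simp only [H281R3.HT.ext, map_smul, smul_mul_assoc]]
      exact Submodule.smul_mem _ _ hx
  · rw [h3.2 hl, ext_zero_right]
    exact Submodule.zero_mem _

omit hq hR

/-- The conjecture for the product and the given exponent. -/
theorem prod_of_factor {n : ℕ}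
    (hgen : ∀ j y, IsGenTate χ υ (W.gr (A.prod Z) (2 * j)) n j y →
      y ∈ Submodule.span W.K {w | IsTateProduct χ τ n j w})
    (hZ : TateExp χ (W.gr Z) (algClasses W Z) τ n) :
    TateExp χ (W.gr (A.prod Z)) (algClasses W (A.prod Z)) υ n := by
  intro j y hy
  refine Submodule.span_le.2 ?_ (hgen j y hy)
  rintro _ ⟨i, hi, x, hx, z, hz, rfl⟩
  have h1 := hZ _ _ hz
  rw [← spanCycles_eq] at h1
  have h2 := ext_span (alg_mem_span hx) h1
  rw [show i + (j - i) = j by omega] at h2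
  rw [SetLike.mem_coe, ← spanCycles_eq]
  exact h2

/-- The conjecture for a factor. -/
theorem factor_of_prod (hD : HomEqNum W A) (h0 : (1 : W.H A) ≠ 0)
    (h2 : Equivariant (W.map (snd A Z)) τ υ) {n : ℕ}
    (hY : TateExp χ (W.gr (A.prod Z)) (algClasses W (A.prod Z)) υ n) :
    TateExp χ (W.gr Z) (algClasses W Z) τ n := by
  intro j y hy
  obtain ⟨hgr, Δ, hΔ, h⟩ := hy
  have h3 : IsGenTate χ υ (W.gr (A.prod Z) (2 * j)) n j (W.map (snd A Z) y) := by
    refine ⟨W.map_mem _ hgr, Δ, hΔ, fun g hg => ?_⟩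
    have h4 : ∀ (n : ℕ) (z : W.H Z), (fun v => act υ g v - χ g ^ j • v)^[n]
          (W.map (snd A Z) z) = W.map (snd A Z) ((fun v => act τ g v - χ g ^ j • v)^[n] z) := by
      intro n
      induction n with
      | zero => intro z; rfl
      | succ n ih =>
        intro z
        rw [Function.iterate_succ_apply, Function.iterate_succ_apply, ← ih]
        congr 1
        rw [h2, map_sub, map_smul]
    have h5 : (fun v => act τ g v - χ g ^ j • v)^[n] y = 0 := h g hg
    rw [Killed, h4, h5, map_zero]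
  have h4 := hY _ _ h3
  obtain ⟨a, ha, ha0⟩ := Pool.Agent.TH125.Gal.exists_pt hD h0
  have h5 : W.push (snd A Z) (W.map (fst A Z) a * W.map (snd A Z) y) ∈ algSpan W Z :=
    TH125.Gal.algSpan_push _ (TH125.Gal.algSpan_mul (TH125.Gal.algSpan_map _ (Submodule.subset_span (Set.mem_iUnion.2 ⟨_, ha⟩)))
      (Submodule.span_mono (Set.subset_iUnion _ j) h4))
  rw [W.push_snd] at h5
  have h6 := Submodule.smul_mem _ (W.tr A a)⁻¹ h5
  rw [smul_smul, inv_mul_cancel₀ ha0, one_smul] at h6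
  exact TH125.Gal.algSpan_gr h6 hgr

/-- **The theorem.** -/
theorem galoisTimes {I : Type} {L : I → Type} [∀ i, Field (L i)] {q : ℕ} (hq : 1 < q)
    {F : I → ℤ[X]} (hR : NoRel F q (Unrelated L)) : GaloisTimes L q F := by
  intro k _ 𝒱 ops W _ σ Γ _ χ A ρ γ s hs h0 hD hA
  refine ⟨tate_abelian hq hR σ hs hA, fun Z τ hZ υ h1 h2 n => ?_⟩
  have hgen : ∀ j y, IsGenTate χ υ (W.gr (A.prod Z) (2 * j)) n j y →
      y ∈ Submodule.span W.K {w | IsTateProduct χ τ n j w} := fun j y hy =>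
    generated_prod hq hR hs hD hA hZ h1 h2 hy
  exact ⟨hgen, fun h => factor_of_prod hD h0 h2 h, fun h => prod_of_factor hgen h⟩

end Pool.Agent.U191.GT
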