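import Pool.Agent.W484.HS.Num
import Pool.Agent.Y1.CT.UnrelDefs

/-!
# The Tate conjecture for the products of abelian varieties and unrelated varieties, over fields of
characteristic zero: definitions
-/

set_option autoImplicit false

open CategoryTheory AlgebraicGeometry

namespace Pool.Agent.U191.GT

open Polynomial Pool.Agent.H914 Pool.Agent.H914.VarClass Pool.Agent.H914.VarClass.Obj
  Pool.Agent.H914.WeilCohomology Pool.Agent.H281R3.HT Pool.Agent.W552 Pool.Agent.W484.HS
  Pool.Agent.Y1.CT

section alg

/-- An action of the group `Γ` on the `K`-algebra `A` (the action of a Galois group on the cohomology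
of a variety). -/
structure Action (Γ K A : Type) [Group Γ] [Field K] [Ring A] [Algebra K A] where
  hom : Γ →* (A ≃ₐ[K] A)

variable {Γ : Type} [Group Γ] {K : Type} [Field K] {A : Type} [Ring A] [Algebra K A]

/-- The element `g` applied to `a`. -/
def act (ρ : Action Γ K A) (g : Γ) (a : A) : A := ρ.hom g a

/-- For the operator `f` on the cohomology and a scalar `μ`: the vector `y` is killed by
`(f - μ) ^ n`. -/
def Killed (f : A → A) (μ : K) (n : ℕ) (y : A) : Prop := (fun v => f v - μ • v)^[n] y = 0

/-- For an action `ρ` of `Γ` on an algebra `A` (the cohomology of a variety) and the character `χ` of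
`Γ` (the action on the Tate twists): `y` is an element of `U` (the cohomology in degree `2 j`) which
is killed by a power, with the exponent `n`, of `g - χ (g) ^ j` for all `g` in a subgroup of finite
index. For `n = 1` these are the Tate classes, in general the generalised Tate classes. -/
def IsGenTate (χ : Γ →* K) (ρ : Action Γ K A) (U : Submodule K A) (n j : ℕ) (y : A) : Prop :=
  y ∈ U ∧ ∃ Δ : Subgroup Γ, Δ.FiniteIndex ∧ ∀ g ∈ Δ, Killed (act ρ g) (χ g ^ j) n y

/-- The Tate conjecture for the generalised Tate classes with the exponent `n`: they are linear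
combinations of elements of `C j` (the classes of cycles of codimension `j`), for all `j`. For `n = 1`
this is the Tate conjecture, for all `n` together it is the Tate conjecture with semisimplicity. -/
def TateExp (χ : Γ →* K) (gr : ℕ → Submodule K A) (C : ℕ → Set A) (ρ : Action Γ K A)
    (n : ℕ) : Prop :=
  ∀ j y, IsGenTate χ ρ (gr (2 * j)) n j y → y ∈ Submodule.span K (C j)

/-- `v` is an eigenvector of `γ` with eigenvalue `z ^ s`, `z` a root of some `F i`. -/
def IsRootVector (ρ : Action Γ K A) (γ : Γ) (s : ℕ) {I : Type} (F : I → ℤ[X]) (v : A) : Prop :=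
  ∃ i, ∃ z : K, aeval z (F i) = 0 ∧ act ρ γ v = z ^ s • v

/-- `Γ` acts by `ρ` on the cohomology `A` of an abelian variety, and `γ ∈ Γ` is like a Frobenius
element of a place of good reduction whose residue field has `q ^ s` elements, where the reduction is
isogenous to a product of powers of abelian varieties coming from the field with `q` elements with
characteristic polynomials `F i`, such that all divisor classes of the reduction come from the given
variety (for instance if it is of CM type and the Frobenius of the reduction generates the CM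
fields): the classes of cycles are Tate classes; the cohomology is generated by `gr 1`, which is
spanned by eigenvectors of `γ` with eigenvalues `z ^ s`, `z` a root of some `F i`; the eigenvectors
of `γ` in `gr 2` for the eigenvalue `q ^ s` are algebraic; `χ γ = q ^ s`. -/
structure HasFrobenius (χ : Γ →* K) (gr : ℕ → Submodule K A) (C : ℕ → Set A)
    (ρ : Action Γ K A) (γ : Γ) (q s : ℕ) {I : Type} (F : I → ℤ[X]) : Prop where
  classes : ∀ j, ∀ c ∈ C j, IsGenTate χ ρ ⊤ 1 j c
  generated : GeneratedBy (gr 1)
  eigen : Submodule.span K {c | c ∈ gr 1 ∧ IsRootVector ρ γ s F c} = gr 1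
  divisors : ∀ c ∈ gr 2, act ρ γ c = (q : K) ^ s • c → c ∈ Submodule.span K (⋃ j, C j)
  twist : χ γ = (q : K) ^ s

/-- The eigenvalues of `γ`, considered as complex numbers by `σ`, are unrelated to the fields
`L i`. -/
def EigenUnrelated (σ : K →+* ℂ) {I : Type} (L : I → Type) [∀ i, Field (L i)]
    (ρ : Action Γ K A) (γ : Γ) : Prop :=
  ∀ (z : K) (v : A), v ≠ 0 → act ρ γ v = z • v → Unrelated L (σ z)

/-- The map `f` is equivariant. -/
def Equivariant {B : Type} [Ring B] [Algebra K B] (f : A → B) (ρ : Action Γ K A)
    (υ : Action Γ K B) : Prop :=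
  ∀ g a, act υ g (f a) = f (act ρ g a)

end alg

section times

variable {k : Type} [Field k] {𝒱 : VarClass k} {ops : CycleOps 𝒱}
  {W : WeilCohomology.{0, 0} ops} {Γ : Type} [Group Γ] {A Z : 𝒱.Obj}

/-- `w` is the product of the class of a cycle of codimension `i ≤ j` on `A` and a generalised Tate
class of degree `2 (j - i)`, with the exponent `n`, on `Z`. -/
def IsTateProduct (χ : Γ →* W.K) (τ : Action Γ W.K (W.H Z)) (n j : ℕ) (w : W.H (A.prod Z)) :
    Prop :=
  ∃ i ≤ j, ∃ x ∈ algClasses W A i, ∃ z,
    IsGenTate χ τ (W.gr Z (2 * (j - i))) n (j - i) z ∧ w = ext W x z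

/-- The generalised Tate classes on `A × Z` with the exponent `n` are linear combinations of products
of classes of cycles on `A` and of generalised Tate classes on `Z`, and the Tate conjecture for
generalised Tate classes with the exponent `n` (in all degrees) holds for `A × Z` if and only if it
holds for `Z`. -/
def ReducesTo (χ : Γ →* W.K) (τ : Action Γ W.K (W.H Z)) (υ : Action Γ W.K (W.H (A.prod Z)))
    (n : ℕ) : Prop :=
  (∀ j y, IsGenTate χ υ (W.gr (A.prod Z) (2 * j)) n j y →
    y ∈ Submodule.span W.K {w | IsTateProduct χ τ n j w}) ∧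
  (TateExp χ (W.gr (A.prod Z)) (algClasses W (A.prod Z)) υ n ↔
    TateExp χ (W.gr Z) (algClasses W Z) τ n)

/-- For **every** variety `Z` with an action `τ` of `Γ` on the cohomology such that the eigenvalues
of `γ` are unrelated to the fields `L i`, every compatible action `υ` on the cohomology of `A × Z`,
and all exponents `n`, the conjecture for `A × Z` reduces to `Z`. -/
def TimesUnrelated (σ : W.K →+* ℂ) {I : Type} (L : I → Type) [∀ i, Field (L i)]
    (χ : Γ →* W.K) (ρ : Action Γ W.K (W.H A)) (γ : Γ) : Prop :=
  ∀ (Z : 𝒱.Obj) (τ : Action Γ W.K (W.H Z)), EigenUnrelated σ L τ γ →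
    ∀ υ : Action Γ W.K (W.H (A.prod Z)),
      Equivariant (W.map (fst A Z)) ρ υ → Equivariant (W.map (snd A Z)) τ υ →
        ∀ n, ReducesTo χ τ υ n

end times

/-- `GaloisTimes L q F`: the following holds for every field `k`, every class `𝒱` of smooth
projective varieties over `k` closed under products, every Weil cohomology `W` with algebraically
closed coefficient field, and an embedding `σ` of this field into `ℂ`, every group `Γ` with a
character `χ`, and every `A` with an action `ρ` of `Γ` on the cohomology and a Frobenius element `γ` as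
in `HasFrobenius`, such that numerical and homological equivalence coincide for `A`:

* the Tate conjecture holds for `A` in all degrees, for generalised Tate classes with all exponents;
* for all `Z` whose eigenvalues of `γ` are unrelated to the fields `L i`, the Tate classes on
  `A × Z` come from those on `Z`, and the conjecture for `A × Z` is equivalent to the conjecture
  for `Z` (`TimesUnrelated`). -/
def GaloisTimes {I : Type} (L : I → Type) [∀ i, Field (L i)] (q : ℕ) (F : I → ℤ[X]) : Prop :=
  ∀ (k : Type) [Field k] (𝒱 : VarClass k) (ops : CycleOps 𝒱) (W : WeilCohomology.{0, 0} ops)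
    [IsAlgClosed W.K] (σ : W.K →+* ℂ) (Γ : Type) [Group Γ] (χ : Γ →* W.K) (A : 𝒱.Obj)
    (ρ : Action Γ W.K (W.H A)) (γ : Γ) (s : ℕ), 0 < s → (1 : W.H A) ≠ 0 → HomEqNum W A →
    HasFrobenius χ (W.gr A) (algClasses W A) ρ γ q s F →
      (∀ n, TateExp χ (W.gr A) (algClasses W A) ρ n) ∧ TimesUnrelated σ L χ ρ γ

end Pool.Agent.U191.GT
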