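import Pool.Agent.U191.PT.Fin
import Pool.Agent.U191.GT.Defs
import Pool.Agent.TH125.Gal.Tate

/-!
# Generalised eigenvectors on products: the abstract form
-/

set_option autoImplicit false

open CategoryTheory AlgebraicGeometry
open scoped TensorProduct

universe u v w

namespace Pool.Agent.U191.GT

open Polynomial Pool.Agent.H914 Pool.Agent.H914.VarClass Pool.Agent.H914.VarClass.Obj
  Pool.Agent.H914.WeilCohomology Pool.Agent.H281R3.HT Pool.Agent.W552 Pool.Agent.W484.HS
  Pool.Agent.TH132.P Pool.Agent.TH132.A Pool.Agent.Y1.CT Pool.Agent.Y1.SC Pool.Agent.TH125.Gal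
  Pool.Agent.W534 Pool.Agent.H447

variable {k : Type u} [Field k] {𝒱 : VarClass k} {ops : CycleOps 𝒱}
  {W : WeilCohomology.{u, v} ops} {X U : 𝒱.Obj}

/-- A basis vector of the generalised eigenspace is algebraic. -/
theorem alg_of_rel (f : W.H X →ₐ[W.K] W.H X) {Z : Type*} (val : Z → W.K) (Q ρ : W.K)
    (hQ : Q ≠ 0) (hdiv : ∀ c ∈ W.gr X 2, f c = Q • c → c ∈ algSpan W X)
    (hpair : ExactPairK val Q ρ) (L : List (W.H X × Z))
    (hL : ∀ e ∈ L, e.1 ∈ W.gr X 1 ∧ f e.1 = val e.2 • e.1) {N : ℕ} (hN : 0 < N) (i : ℤ)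
    (hrel : ((L.map (fun e => val e.2)).prod * ρ) ^ N = (Q ^ i) ^ N) :
    (L.map Prod.fst).prod ∈ algSpan W X := by
  refine list_mem f val Q ρ hQ hpair (algSpan W X) one_mem_algSpan
    (fun a ha b hb => mul_mem_algSpan ha hb) (W.gr X 1 : Set (W.H X)) ?_ ?_ L.length
    i N hN L rfl hL hrel
  · intro a ha b hb
    rw [W.comm ha hb]
    simp
  · intro a ha b hb x y hx hy hxy
    refine hdiv _ (W.mul_mem ha hb) ?_
    rw [map_mul, hx, hy, smul_mul_smul_comm, hxy]

/-- **The generalised eigenvectors on `X`.** -/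
theorem mem_alg_abs (f : W.H X →ₐ[W.K] W.H X) {Z : Type*} (val : Z → W.K) (Q : W.K)
    (hQ : Q ≠ 0) (hgen : Algebra.adjoin W.K (W.gr X 1 : Set (W.H X)) = ⊤)
    (heig : Submodule.span W.K {v : W.H X | v ∈ W.gr X 1 ∧ ∃ x, f v = val x • v} = W.gr X 1)
    (hdiv : ∀ c ∈ W.gr X 2, f c = Q • c → c ∈ algSpan W X) (hpair : ExactPairK val Q 1)
    {N : ℕ} (i n : ℕ) (hN : 0 < N) {c : W.H X}
    (hc : ((f.toLinearMap ^ N - ((Q ^ i) ^ N) • (1 : Module.End W.K (W.H X))) ^ n) c = 0) :
    c ∈ algSpan W X := by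
  classical
  obtain ⟨r, b, hb⟩ := exists_list_basis f val (W.gr X 1) heig hgen
  choose L hL hLb using hb
  set α : Fin r → W.K := fun t => ((L t).map (fun e => val e.2)).prod with hαdef
  have hα : ∀ t, f (b t) = α t • b t := by
    intro t
    rw [hLb]
    exact Pool.Agent.W484.HS.map_list_prod f val (L t) fun e he => (hL t e he).2
  have hαN : ∀ (N : ℕ) t, (f.toLinearMap ^ N) (b t) = α t ^ N • b t := by
    intro N t
    induction N with
    | zero => simp
    | succ N ih =>
      rw [pow_succ', Module.End.mul_apply, ih, map_smul, AlgHom.toLinearMap_apply, hα, smul_smul,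
        pow_succ]
  set μ : W.K := (Q ^ i) ^ N with hμ
  have h1 : ∀ (n : ℕ) (j : Fin r), ((f.toLinearMap ^ N -
      μ • (1 : Module.End W.K (W.H X))) ^ n) (b j) = (α j ^ N - μ) ^ n • b j := by
    intro n j
    induction n with
    | zero => simp
    | succ n ih =>
      rw [pow_succ', Module.End.mul_apply, ih, map_smul, LinearMap.sub_apply,
        hαN, LinearMap.smul_apply, Module.End.one_apply, ← sub_smul, smul_smul, pow_succ]
  have h2 : ∀ j, (α j ^ N - μ) ^ n * b.repr c j = 0 := by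
    have h3 : ∑ j, ((α j ^ N - μ) ^ n * b.repr c j) • b j = 0 := by
      rw [← hc]
      conv_rhs => rw [← b.sum_repr c]
      rw [map_sum]
      refine Finset.sum_congr rfl fun j _ => ?_
      rw [map_smul, h1, smul_smul, mul_comm]
    intro j
    exact Fintype.linearIndependent_iff.1 b.linearIndependent _ h3 j
  rw [← b.sum_repr c]
  refine Submodule.sum_mem _ fun j _ => ?_
  by_cases hj : b.repr c j = 0
  · rw [hj, zero_smul]
    exact Submodule.zero_mem _
  refine Submodule.smul_mem _ _ ?_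
  have h3 : α j ^ N = μ := by
    rcases mul_eq_zero.1 (h2 j) with h | h
    · exact sub_eq_zero.1 (by_contra fun h0 => pow_ne_zero n h0 h)
    · exact absurd h hj
  rw [hLb j]
  refine alg_of_rel f val Q 1 hQ hdiv hpair (L j) (hL j) hN (i : ℤ) ?_
  rw [mul_one, zpow_natCast]
  exact h3

/-- **The generalised eigenvectors on `X × U`.** -/
theorem mem_mix_abs [IsAlgClosed W.K] (f : W.H X →ₐ[W.K] W.H X) (G : Module.End W.K (W.H U))
    (T : Module.End W.K (W.H (X.prod U)))
    (hT : ∀ x y, T (ext W x y) = ext W (f x) (G y)) {Z : Type*} (val : Z → W.K) (Q : W.K)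
    (hQ : Q ≠ 0) (hgen : Algebra.adjoin W.K (W.gr X 1 : Set (W.H X)) = ⊤)
    (heig : Submodule.span W.K {v : W.H X | v ∈ W.gr X 1 ∧ ∃ x, f v = val x • v} = W.gr X 1)
    (hdiv : ∀ c ∈ W.gr X 2, f c = Q • c → c ∈ algSpan W X)
    (hpair : ∀ ρ, Module.End.HasEigenvalue G ρ → ExactPairK val Q ρ)
    {N : ℕ} (i n : ℕ) (hN : 0 < N) {c : W.H (X.prod U)}
    (hc : ((T ^ N - ((Q ^ i) ^ N) • (1 : Module.End W.K (W.H (X.prod U)))) ^ n) c = 0) :
    c ∈ mixSpan W X U := by
  classical
  obtain ⟨r, b, hb⟩ := exists_list_basis f val (W.gr X 1) heig hgen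
  obtain ⟨e, he1, he2⟩ := exists_comp (Y := U) b
  choose L hL hLb using hb
  set α : Fin r → W.K := fun t => ((L t).map (fun e => val e.2)).prod with hαdef
  have hα : ∀ t, f (b t) = α t • b t := by
    intro t
    rw [hLb]
    exact Pool.Agent.W484.HS.map_list_prod f val (L t) fun e he => (hL t e he).2
  set μ : W.K := (Q ^ i) ^ N with hμ
  have hTN : ∀ (N : ℕ) j (y : W.H U), (T ^ N) (ext W (b j) y) =
      ext W (b j) (((α j ^ N) • G ^ N) y) := by
    intro N j y
    induction N with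
    | zero => simp
    | succ N ih =>
      rw [pow_succ', Module.End.mul_apply, ih, hT, hα, LinearMap.smul_apply, map_smul,
        LinearMap.smul_apply, ext_smul_right, ext_smul_right, pow_succ' G, Module.End.mul_apply,
        pow_succ]
      simp only [H281R3.HT.ext, map_smul, smul_mul_assoc, smul_smul]
  have hop : ∀ (w : W.H (X.prod U)), (T ^ N - μ • (1 : Module.End W.K (W.H (X.prod U)))) w =
        ∑ j, ext W (b j) (((α j ^ N) • G ^ N - μ • (1 : Module.End W.K (W.H U))) (e w j)) := by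
    intro w
    conv_lhs => rw [he1 w]
    rw [map_sum]
    refine Finset.sum_congr rfl fun j _ => ?_
    have h6 : ∀ (y : W.H U), ((α j ^ N) • G ^ N - μ • (1 : Module.End W.K (W.H U))) y =
        (α j ^ N • G ^ N) y + (-μ) • y := by
      intro y
      rw [LinearMap.sub_apply, sub_eq_add_neg, neg_smul]
      rfl
    rw [h6, ext_add_right, ext_smul_right, ← hTN, neg_smul, LinearMap.sub_apply, sub_eq_add_neg]
    rfl
  have hcomp : ∀ (n : ℕ) (w : W.H (X.prod U)) (j : Fin r),
      e (((T ^ N - μ • (1 : Module.End W.K (W.H (X.prod U)))) ^ n) w) j =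
        (((α j ^ N) • G ^ N - μ • (1 : Module.End W.K (W.H U))) ^ n) (e w j) := by
    intro n
    induction n with
    | zero => intro w j; rfl
    | succ n ih =>
      intro w j
      rw [pow_succ, Module.End.mul_apply, ih, hop, pow_succ, Module.End.mul_apply]
      congr 1
      rw [map_sum, Finsupp.finsetSum_apply, Finset.sum_eq_single j]
      · rw [he2, Finsupp.single_eq_same]
      · intro j' _ hj'
        rw [he2]
        exact Finsupp.single_eq_of_ne hj'.symm
      · intro h
        exact absurd (Finset.mem_univ _) h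
  rw [he1 c]
  refine Submodule.sum_mem _ fun j _ => ?_
  by_cases hj : e c j = 0
  · rw [hj, ext_zero_right]
    exact Submodule.zero_mem _
  refine ext_mem_mixSpan ?_ _
  have hk : (((α j ^ N) • G ^ N - μ • (1 : Module.End W.K (W.H U))) ^ n) (e c j) = 0 := by
    rw [← hcomp, hc, map_zero]
    rfl
  have hev : Module.End.HasEigenvalue (α j ^ N • G ^ N) μ := by
    exact Module.End.hasEigenvalue_of_hasGenEigenvalue (k := n) fun h5 => hj <| by
      have h6 : e c j ∈ Module.End.genEigenspace (α j ^ N • G ^ N) μ n := by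
        rw [Module.End.mem_genEigenspace_nat, LinearMap.mem_ker]
        exact hk
      rw [h5] at h6
      exact (Submodule.mem_bot _).1 h6
  obtain ⟨v, hv⟩ := hev.exists_hasEigenvector
  have hμ0 : μ ≠ 0 := pow_ne_zero _ (pow_ne_zero _ hQ)
  have hα0 : α j ^ N ≠ 0 := by
    intro h0
    have h2 := hv.apply_eq_smul
    rw [h0, zero_smul, LinearMap.zero_apply] at h2
    rcases smul_eq_zero.1 h2.symm with h4 | h4
    · exact hμ0 h4
    · exact hv.2 h4
  have h2 : (G ^ N) v = (μ / α j ^ N) • v := by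
    have h3 := congrArg (fun z => (α j ^ N)⁻¹ • z) hv.apply_eq_smul
    simp only [LinearMap.smul_apply, smul_smul] at h3
    rw [inv_mul_cancel₀ hα0, one_smul] at h3
    rw [h3, div_eq_inv_mul]
  have h3 : Module.End.HasEigenvalue (G ^ N) (μ / α j ^ N) :=
    Module.End.hasEigenvalue_of_hasEigenvector ⟨Module.End.mem_eigenspace_iff.2 h2, hv.2⟩
  have h4 := Module.End.hasEigenvalue_iff_mem_spectrum.1 h3
  rw [spectrum.map_pow_of_pos _ hN] at h4
  obtain ⟨ρ, hρ, hρM⟩ := h4
  have hρe : Module.End.HasEigenvalue G ρ := Module.End.hasEigenvalue_iff_mem_spectrum.2 hρ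
  have hρM : ρ ^ N = μ / α j ^ N := hρM
  rw [hLb j]
  refine alg_of_rel f val Q ρ hQ hdiv (hpair ρ hρe) (L j) (hL j) hN (i : ℤ) ?_
  rw [mul_pow, hρM, zpow_natCast]
  exact mul_div_cancel₀ _ hα0

end Pool.Agent.U191.GT
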